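import Pool.Agent.R3B.StmtsU

/-!
# STP (MP_be01ff_an, squad R3B): one step of the decay of the supremum, uniform in the weight
-/

set_option autoImplicit false

namespace Pool.Agent.R3B.H10

open Set Filter Topology MeasureTheory
open Pool.Agent.Helper39_Wave (phi phi_of_nonneg continuous_phi monotone_phi phi_nonneg
  phi_ge_tangent)
open Pool.Agent.Helper72_Shell (CharSol En psi fold)

theorem lmd_nonneg {α k0 k1 Λ : ℝ} (hα : 0 < α) (h0 : 0 < k0) (h1 : 0 ≤ k1) (hΛ : 0 ≤ Λ) :
    0 ≤ lmd α k0 k1 Λ := by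
  unfold lmd
  have := Real.rpow_nonneg hΛ α
  have h2 : (0 : ℝ) < 2 ^ α := Real.rpow_pos_of_pos (by norm_num) _
  positivity

theorem ub_neg {κ α ℓ b0 : ℝ} {b : ℝ → ℝ} {P : ℝ → ℝ → ℝ} {k0 k1 Λ : ℝ}
    (u : UB κ α ℓ b0 b P k0 k1 Λ) : UB κ α ℓ b0 b (fun t y => -P t y) k0 k1 Λ where
  sol := u.sol.neg
  k0p := u.k0p
  k1n := u.k1n
  Λn := u.Λn
  lo := u.lo
  hi := u.hi
  vb := by
    intro t y ht
    have h1 := u.vb t y ht
    have h2 : -P t y - -P t (2 * t - y) = -(P t y - P t (2 * t - y)) := by ring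
    rw [h2, abs_neg]
    exact h1
  one := by
    intro y
    rw [abs_neg]
    exact u.one y

theorem step_le (grw : GrwStmt) {κ α ℓ b0 : ℝ} {b : ℝ → ℝ} {P : ℝ → ℝ → ℝ} {k0 k1 Λ : ℝ}
    (u : UB κ α ℓ b0 b P k0 k1 Λ) {t0 M : ℝ} (ht0 : 0 ≤ t0) (hM1 : M ≤ 1)
    (hM : ∀ y, |P t0 y| ≤ M) (y : ℝ) :
    P (t0 + ℓ) y ≤ M - cc α ℓ k0 k1 Λ * M ^ (α + 1) := by
  have h := u.sol
  have hk0 := u.k0p
  unfold cc
  have hgr := grw κ α ℓ b0 b P k0 k1 Λ u t0 M
  have hb := h.abs_le_of_le ht0 hM
  have hM0 : 0 ≤ M := (abs_nonneg _).trans (hM 0)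
  have hα := h.apos
  have hℓ := h.lpos
  have hlam0 : 0 ≤ lmd α k0 k1 Λ := lmd_nonneg hα u.k0p u.k1n u.Λn
  generalize lmd α k0 k1 Λ = lam at hgr hlam0 ⊢
  set q : ℝ := Real.exp (-(lam * ℓ)) with hq
  have hq0 : 0 < q := Real.exp_pos _
  have hcw0 : Continuous (fun s : ℝ => phi α (M - P s (2 * s - y))) := by
    apply (continuous_phi h.apos).comp
    apply continuous_const.sub
    exact h.contP continuous_id (by fun_prop)
  -- lower bound of the integrand
  have hlow : ∀ s ∈ Set.Icc t0 (t0 + ℓ),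
      phi α (q * M) + (α + 1) * (q * M) ^ α * (-(q * P t0 (2 * s - y))) ≤
        phi α (M - P s (2 * s - y)) := by
    intro s hs
    have h1 := hgr (2 * s - y) s ht0 hM1 hM hs.1
    have h2 : 0 ≤ ∫ r in t0..s, phi α (M - P r (2 * r - (2 * s - y))) := by
      apply intervalIntegral.integral_nonneg hs.1
      intro r hr
      apply phi_nonneg
      linarith [(abs_le.mp (hb r hr.1 (2 * r - (2 * s - y)))).2]
    have h3 : M - P t0 (2 * s - y) ≤ Real.exp (lam * (s - t0)) * (M - P s (2 * s - y)) := by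
      have := mul_nonneg hk0.le h2
      linarith
    have h4 : 0 ≤ M - P s (2 * s - y) := by linarith [(abs_le.mp (hb s hs.1 (2 * s - y))).2]
    have h5 : Real.exp (lam * (s - t0)) ≤ Real.exp (lam * ℓ) := by
      apply Real.exp_le_exp.mpr
      exact mul_le_mul_of_nonneg_left (by linarith [hs.2]) hlam0
    have h6 : M - P t0 (2 * s - y) ≤ Real.exp (lam * ℓ) * (M - P s (2 * s - y)) :=
      h3.trans (mul_le_mul_of_nonneg_right h5 h4)
    have h7 : q * (M - P t0 (2 * s - y)) ≤ M - P s (2 * s - y) := by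
      have h8 : q * Real.exp (lam * ℓ) = 1 := by
        rw [hq, ← Real.exp_add]; simp
      calc q * (M - P t0 (2 * s - y)) ≤ q * (Real.exp (lam * ℓ) * (M - P s (2 * s - y))) :=
            mul_le_mul_of_nonneg_left h6 hq0.le
        _ = (q * Real.exp (lam * ℓ)) * (M - P s (2 * s - y)) := by ring
        _ = _ := by rw [h8, one_mul]
    have h9 : 0 ≤ q * (M - P t0 (2 * s - y)) := by
      apply mul_nonneg hq0.le
      linarith [(abs_le.mp (hM (2 * s - y))).2]
    have h10 := phi_ge_tangent hα h9 (mul_nonneg hq0.le hM0)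
    have h11 : q * (M - P t0 (2 * s - y)) - q * M = -(q * P t0 (2 * s - y)) := by ring
    rw [h11] at h10
    exact h10.trans (monotone_phi hα h7)
  have hint0 : ∫ s in t0..(t0 + ℓ), P t0 (2 * s - y) = 0 := by
    have h1 := intervalIntegral.integral_comp_mul_sub (f := P t0) (a := t0) (b := t0 + ℓ)
      (c := 2) (two_ne_zero) y
    rw [h1]
    have h2 : 2 * (t0 + ℓ) - y = (2 * t0 - y) + 2 * ℓ := by ring
    rw [h2, h.integral_period ht0]
    simp
  have hint0' : ℓ * phi α (q * M) ≤ ∫ s in t0..(t0 + ℓ), phi α (M - P s (2 * s - y)) := by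
    have hcl : Continuous (fun s : ℝ => phi α (q * M) +
        (α + 1) * (q * M) ^ α * (-(q * P t0 (2 * s - y)))) := by
      apply continuous_const.add
      apply continuous_const.mul
      apply Continuous.neg
      apply continuous_const.mul
      exact h.contP continuous_const (by fun_prop)
    have h1 := intervalIntegral.integral_mono_on (μ := volume) (by linarith : t0 ≤ t0 + ℓ)
      (hcl.intervalIntegrable _ _) (hcw0.intervalIntegrable _ _) hlow
    have h2 : ∫ s in t0..(t0 + ℓ), (phi α (q * M) +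
        (α + 1) * (q * M) ^ α * (-(q * P t0 (2 * s - y)))) = ℓ * phi α (q * M) := by
      have hcP : Continuous (fun s : ℝ => P t0 (2 * s - y)) :=
        h.contP continuous_const (by fun_prop)
      have hi1 : IntervalIntegrable (fun _ : ℝ => phi α (q * M)) volume t0 (t0 + ℓ) :=
        continuous_const.intervalIntegrable _ _
      have hi2 : IntervalIntegrable (fun s : ℝ => (α + 1) * (q * M) ^ α * (-(q * P t0 (2 * s - y))))
          volume t0 (t0 + ℓ) :=
        (continuous_const.mul (continuous_const.mul hcP).neg).intervalIntegrable _ _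
      rw [intervalIntegral.integral_add hi1 hi2]
      rw [intervalIntegral.integral_const, intervalIntegral.integral_const_mul,
        intervalIntegral.integral_neg, intervalIntegral.integral_const_mul, hint0]
      simp
    rw [h2] at h1
    exact h1
  have hg := hgr y (t0 + ℓ) ht0 hM1 hM (by linarith : t0 ≤ t0 + ℓ)
  have h12 : t0 + ℓ - t0 = ℓ := by ring
  rw [h12] at hg
  have h13 : 0 ≤ M - P t0 y := by linarith [(abs_le.mp (hM y)).2]
  have h14 : k0 * (ℓ * phi α (q * M)) ≤ Real.exp (lam * ℓ) * (M - P (t0 + ℓ) y) := by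
    have := mul_le_mul_of_nonneg_left hint0' hk0.le
    linarith
  have h15 : q * (k0 * (ℓ * phi α (q * M))) ≤ M - P (t0 + ℓ) y := by
    have h8 : q * Real.exp (lam * ℓ) = 1 := by
      rw [hq, ← Real.exp_add]; simp
    calc q * (k0 * (ℓ * phi α (q * M))) ≤ q * (Real.exp (lam * ℓ) * (M - P (t0 + ℓ) y)) :=
          mul_le_mul_of_nonneg_left h14 hq0.le
      _ = (q * Real.exp (lam * ℓ)) * (M - P (t0 + ℓ) y) := by ring
      _ = _ := by rw [h8, one_mul]
  have h16 : q * (k0 * (ℓ * phi α (q * M))) =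
      k0 * ℓ * Real.exp (-(lam * ℓ * (α + 2))) * M ^ (α + 1) := by
    rw [phi_of_nonneg hα (mul_nonneg hq0.le hM0), Real.mul_rpow hq0.le hM0]
    have h17 : Real.exp (-(lam * ℓ * (α + 2))) = q * q ^ (α + 1) := by
      rw [hq, ← Real.exp_mul, ← Real.exp_add]
      congr 1; ring
    rw [h17]; ring
  rw [h16] at h15
  linarith

theorem stp (grw : GrwStmt) : StpStmt := by
  intro κ α ℓ b0 b P k0 k1 Λ u t0 M y ht0 hM1 hM
  have h1 := step_le grw u ht0 hM1 hM y
  have h2 := step_le grw (ub_neg u) (M := M) ht0 hM1 (fun y => by rw [abs_neg]; exact hM y) y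
  rw [abs_le]
  constructor <;> linarith

end Pool.Agent.R3B.H10
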